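import Pool.Agent.Y156.L.Props
import Pool.Agent.P8H27.UC.Defs

/-!
# Products of varieties with uncorrelated slopes: definitions

The data `AbelianData` and `RelData` are those of the starting files. Here they are used for an arbitrary
smooth projective variety `X` instead of an abelian variety (the subspace `H1` plays no role).
-/

set_option autoImplicit false

namespace Pool.Agent.P8H27.UT

open Polynomial Module Pool.Agent.Y156.L Pool.Agent.P8H27.UC

section variety

variable {K : Type} [Field K] (X : AbelianData K)

/-- `X` is a smooth projective variety over the field with `Q` elements, whose motive is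
finite-dimensional: the Chow ring, a Weil cohomology with Poincare duality, the Frobenius endomorphism,
the correspondences (homologically trivial ones are nilpotent), and an ample divisor `h`. -/
structure IsVariety (Q : ℕ) : Prop where
  chow : IsChowRing X
  cohomology : IsCohomology X
  frobenius : IsFrobenius X Q
  correspondence : IsCorrespondence X
  ample : ∃ h, X.Codim 1 h ∧ X.cl (h ^ X.dim) ≠ 0

/-- The Tate conjecture for `X`: Frobenius is semisimple, and the classes in `H^(2 l)` which it
multiplies by `Q ^ l` are combinations of classes of algebraic cycles. -/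
structure HasTate (Q : ℕ) : Prop where
  semisimple : Submodule.span K {v : X.H | ∃ μ : K, X.frobH v = μ • v} = ⊤
  tate : ∀ (l : ℕ) (v : X.H), X.frobH v = (Q : K) ^ l • v →
    v ∈ Submodule.span K (X.cl '' X.codim l)

/-- `μ` is an eigenvalue of Frobenius on the cohomology of `X`. -/
def IsEigenvalue (μ : K) : Prop := ∃ v : X.H, v ≠ 0 ∧ X.frobH v = μ • v

/-- Up to a root of unity, the number `ρ` is an odd power of the square root of `q`. -/
def IsOddSS (q : ℕ) (ρ : K) : Prop :=
  ∃ (n : ℕ) (k : ℤ), 0 < n ∧ Odd k ∧ ρ ^ (2 * n) = (q : K) ^ (k * n)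

variable [CharZero K]

/-- The eigenvalues of Frobenius on the cohomology of `X` are products of the Weil numbers in the set
`R` (each is given with its weight); and if such an eigenvalue is a power of `q = p ^ m` up to a root of
unity then it is a power of `q` (this is so over some finite extension of the ground field). -/
structure HasEigenvaluesIn (p m : ℕ) (R : Set (K × ℤ)) : Prop where
  weil : ∀ a ∈ R, IsWeilNumber p m a.2 a.1
  product : ∀ μ, IsEigenvalue X μ → ∃ u, IsProductOf R u μ
  neat : ∀ μ, IsEigenvalue X μ → ∀ (n : ℕ) (k : ℤ), 0 < n →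
    μ ^ n = ((p ^ m : ℕ) : K) ^ (k * n) → ∃ l : ℕ, μ = ((p ^ m : ℕ) : K) ^ l

/-- The Weil numbers (with weights) whose slopes are uncorrelated with those of all members of `R`. -/
def uncorrelatedWith (p m : ℕ) [Fact p.Prime] (R : Set (K × ℤ)) : Set (K × ℤ) :=
  {b | IsWeilNumber p m b.2 b.1 ∧ ∀ a ∈ R, Uncorrelated p m a.2 b.2 a.1 b.1}

/-- `ρ` is a product of Weil numbers whose slopes are uncorrelated with those of `R`; and if there is an
eigenvalue on the cohomology of `X` which is an odd power of the square root of `q = p ^ m`, up to a root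
of unity, then `ρ` is not. -/
def IsUncorrelated (p m : ℕ) [Fact p.Prime] (R : Set (K × ℤ)) (ρ : K) : Prop :=
  (∃ w, IsProductOf (uncorrelatedWith p m R) w ρ) ∧
    ((∀ μ, IsEigenvalue X μ → ¬ IsOddSS (p ^ m) μ) ∨ ¬ IsOddSS (p ^ m) ρ)

end variety

section rel

variable {K : Type} [Field K] {X : AbelianData K}

/-- The Frobenius endomorphism of `Z` satisfies, on the elements considered in `InvM`, for all `i` and
`j`, a nonzero rational polynomial all of whose roots are uncorrelated with `X`. In `ℓ`-adic cohomology
this is a condition on the eigenvalues of the Frobenius endomorphism of `Z`. -/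
def HasUncorrelatedRoots [CharZero K] (p m : ℕ) [Fact p.Prime] (R : Set (K × ℤ)) (T : RelData X) :
    Prop :=
  ∀ i j : ℤ, ∃ χ : ℚ[X], χ ≠ 0 ∧ (∀ ρ : K, aeval ρ χ = 0 → IsUncorrelated X p m R ρ) ∧
    ∀ x, T.InvM (p ^ m) i j x → aeval T.frobM χ x = 0

/-- A finite system of cycles `D t` of codimension `c t ≤ dim X` on `X`, such that every number
`k ≤ dim X` is one of the `c t`. -/
structure IsSystem (X : AbelianData K) {J : Type} [Fintype J] (c : J → ℕ) (D : J → X.CH) : Prop where
  codim : ∀ t, X.Codim (c t) (D t)
  le : ∀ t, c t ≤ X.dim
  exists_eq : ∀ k ≤ X.dim, ∃ t, c t = k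

end rel

end Pool.Agent.P8H27.UT
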