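import Mathlib
import Pool.Agent.P8H27.UT.Defs
import Pool.Agent.Y156.L.Core
import Pool.Agent.Y156.L.Thms

/-!
# The classes of cycles on a variety
-/

set_option autoImplicit false
set_option linter.unusedSectionVars false

namespace Pool.Agent.P8H27.UT

open Polynomial Module Pool.Agent.Y156.L

variable {K : Type} [Field K] {A : AbelianData K} {q : ℕ}

namespace IsVariety

section

variable (hA : IsVariety A q)

include hA

theorem one_mem : (1 : A.CH) ∈ A.codim 0 := hA.chow.one_mem

theorem mul_mem {c d : ℕ} {x y : A.CH} (hx : x ∈ A.codim c) (hy : y ∈ A.codim d) :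
    x * y ∈ A.codim (c + d) := hA.chow.mul_mem hx hy

theorem top {c : ℕ} {x : A.CH} (hc : A.dim < c) (hx : x ∈ A.codim c) : x = 0 :=
  hA.chow.top hc hx

theorem deg_eq_zero {c : ℕ} {x : A.CH} (hc : c ≠ A.dim) (hx : x ∈ A.codim c) : A.deg x = 0 :=
  hA.chow.deg_eq_zero hc hx

theorem finite : Module.Finite K A.H := hA.cohomology.finite

theorem nontrivial : Nontrivial A.H := hA.cohomology.nontrivial

theorem nondeg (a : A.H) (h : ∀ b, A.tr (a * b) = 0) : a = 0 := hA.cohomology.nondeg a h

theorem tr_cl (x : A.CH) : A.tr (A.cl x) = (A.deg x : K) := hA.cohomology.tr_cl x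

theorem tr_frob (a : A.H) : A.tr (A.frobH a) = (q : K) ^ A.dim * A.tr a :=
  hA.frobenius.tr_frob a

theorem frob_cl {c : ℕ} {x : A.CH} (hx : x ∈ A.codim c) :
    A.frobH (A.cl x) = (q : K) ^ c • A.cl x := hA.frobenius.frob_cl hx

theorem act_frob (a : A.H) : A.act A.frob a = A.frobH a := hA.correspondence.act_frob a

theorem act_corr {c d : ℕ} {x y : A.CH} (h : c + d = A.dim) (hx : x ∈ A.codim c)
    (hy : y ∈ A.codim d) (a : A.H) : A.act (A.corr x y) a = A.tr (A.cl x * a) • A.cl y :=
  hA.correspondence.act_corr h hx hy a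

theorem nilpotent (Γ : A.Corr) (h : A.act Γ = 0) : IsNilpotent Γ :=
  hA.correspondence.nilpotent Γ h

end

end IsVariety

/-- The span of the classes of the cycles of codimension `n`. -/
def AK (A : AbelianData K) (n : ℕ) : Submodule K A.H := Submodule.span K (A.cl '' A.codim n)

variable [CharZero K]

theorem cl_mem_AK {n : ℕ} {x : A.CH} (hx : x ∈ A.codim n) : A.cl x ∈ AK A n :=
  Submodule.subset_span ⟨x, hx, rfl⟩

variable (hA : IsVariety A q)

include hA

theorem AK_eigen {n : ℕ} {c : A.H} (hc : c ∈ AK A n) :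
    A.frobH c = (q : K) ^ n • c := by
  unfold AK at hc
  induction hc using Submodule.span_induction with
  | mem c hc =>
    obtain ⟨D, hD, rfl⟩ := hc
    exact hA.frob_cl hD
  | zero => rw [map_zero, smul_zero]
  | add x y _ _ hx hy => rw [map_add, hx, hy, smul_add]
  | smul a x _ hx => rw [map_smul, hx, smul_comm]

section basis

variable (hQ : 1 < q) {r : ℕ} (b : Basis (Fin r) K A.H) (α : Fin r → K)
  (hb : ∀ t, A.frobH (b t) = α t • b t)
  (h1 : ∀ t (c : ℤ), α t = (q : K) ^ c →
    ∃ k : ℕ, α t = (q : K) ^ k ∧ b t ∈ AK A k)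

include hQ hb h1

/-- **The intersection pairing is nondegenerate.** -/
theorem AK_nondeg {n : ℕ} (hn : n ≤ A.dim) {c : A.H} (hc : c ∈ AK A n)
    (h : ∀ c' ∈ AK A (A.dim - n), A.tr (c * c') = 0) : c = 0 := by
  have hQK : (q : K) ≠ 0 := by
    have : q ≠ 0 := by omega
    exact_mod_cast this
  have hbt : ∀ t, A.tr (c * b t) = 0 := by
    intro t
    by_cases ht : α t = (q : K) ^ (A.dim - n)
    · obtain ⟨m, hm, hbm⟩ := h1 t ((A.dim - n : ℕ) : ℤ) (by rw [zpow_natCast]; exact ht)
      have h2 : m = A.dim - n := by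
        have h3 : ((q ^ m : ℕ) : K) = ((q ^ (A.dim - n) : ℕ) : K) := by
          push_cast
          rw [← hm, ht]
        exact Nat.pow_right_injective hQ (Nat.cast_injective h3)
      rw [h2] at hbm
      exact h _ hbm
    · have h2 := hA.tr_frob (c * b t)
      rw [map_mul, AK_eigen hA hc, hb, smul_mul_smul_comm, map_smul, smul_eq_mul] at h2
      have h3 : ((q : K) ^ n * α t - (q : K) ^ A.dim) * A.tr (c * b t) = 0 := by
        rw [sub_mul, h2, sub_self]
      rcases mul_eq_zero.1 h3 with h4 | h4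
      · exfalso
        apply ht
        have h5 : (q : K) ^ n * (q : K) ^ (A.dim - n) = (q : K) ^ A.dim := by
          rw [← pow_add]
          congr 1
          omega
        rw [sub_eq_zero, ← h5] at h4
        exact mul_left_cancel₀ (pow_ne_zero _ hQK) h4
      · exact h4
  apply hA.nondeg
  intro y
  have h2 : y = ∑ t, b.repr y t • b t := (b.sum_repr y).symm
  rw [h2, Finset.mul_sum, map_sum]
  refine Finset.sum_eq_zero fun t _ => ?_
  rw [mul_smul_comm, map_smul, hbt, smul_zero]

/-- The dual system in one codimension. -/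
theorem exists_dual_one {n : ℕ} (hn : n ≤ A.dim) :
    ∃ (m : ℕ) (D E : Fin m → A.CH), (∀ t, D t ∈ A.codim n) ∧
      (∀ t, E t ∈ A.codim (A.dim - n)) ∧
      (∀ t u, A.deg (D t * E u) = if t = u then 1 else 0) ∧
      AK A n ≤ Submodule.span K (Set.range fun t => A.cl (D t)) := by
  classical
  have := hA.finite
  obtain ⟨S, hS1, hS2, hS3⟩ := exists_linearIndependent K (A.cl '' A.codim n)
  have hfin : S.Finite := hS3.setFinite
  have hft := hfin.fintype
  let e := Fintype.equivFin S
  have hD : ∀ t : Fin (Fintype.card S), ∃ x, x ∈ A.codim n ∧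
    (e.symm t : A.H) = A.cl x := fun t => by
      obtain ⟨x, hx1, hx2⟩ := hS1 (e.symm t).2
      exact ⟨x, hx1, hx2.symm⟩
  choose D hDm hDcl using hD
  have hli : LinearIndependent K (fun t => A.cl (D t)) := by
    have h2 : (fun t => A.cl (D t)) = (fun x : S => (x : A.H)) ∘ e.symm := by
      funext t
      exact (hDcl t).symm
    rw [h2]
    exact hS3.comp _ e.symm.injective
  have hspan : AK A n ≤ Submodule.span K (Set.range fun t => A.cl (D t)) := by
    unfold AK
    rw [← hS2]
    refine Submodule.span_mono ?_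
    intro x hx
    refine ⟨e ⟨x, hx⟩, ?_⟩
    beta_reduce
    rw [← hDcl, Equiv.symm_apply_apply]
  let 𝒮 : Submodule ℚ A.CH := A.codim (A.dim - n)
  let ψ : 𝒮 →ₗ[ℚ] (Fin (Fintype.card S) → ℚ) :=
    LinearMap.pi fun t => A.deg ∘ₗ LinearMap.mulLeft ℚ (D t) ∘ₗ 𝒮.subtype
  have hψ : ∀ E t, ψ E t = A.deg (D t * E) := fun _ _ => rfl
  have hsurj : LinearMap.range ψ = ⊤ := by
    by_contra hne
    obtain ⟨φ, hf0, hf⟩ := Submodule.exists_le_ker_of_lt_top _ (lt_top_iff_ne_top.2 hne)
    apply hf0
    set c : A.H := ∑ t, ((φ (Pi.single t 1) : ℚ) : K) • A.cl (D t) with hc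
    set z : A.CH := ∑ t, φ (Pi.single t 1) • D t with hz
    have hcz : c = A.cl z := by
      rw [hc, hz, map_sum]
      exact Finset.sum_congr rfl fun t _ => (cl_smul _ _).symm
    have hcm : c ∈ AK A n :=
      Submodule.sum_mem _ fun t _ => Submodule.smul_mem _ _ (cl_mem_AK (hDm t))
    have hc0 : c = 0 := by
      refine AK_nondeg hA hQ b α hb h1 hn hcm ?_
      intro c' hc'
      unfold AK at hc'
      induction hc' using Submodule.span_induction with
      | mem c' hc' =>
        obtain ⟨E, hE, rfl⟩ := hc'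
        rw [hcz, ← map_mul, hA.tr_cl]
        have hE' : E ∈ 𝒮 := hE
        have h4 : φ (ψ ⟨E, hE'⟩) = 0 := hf ⟨_, rfl⟩
        have h5 : A.deg (z * E) = φ (ψ ⟨E, hE'⟩) := by
          have h6 : ψ ⟨E, hE'⟩ = ∑ t, A.deg (D t * E) • Pi.single (M := fun _ => ℚ) t 1 := by
            funext t
            rw [hψ, Finset.sum_apply]
            simp [Pi.single_apply]
          rw [h6, map_sum, hz, Finset.sum_mul, map_sum]
          refine Finset.sum_congr rfl fun t _ => ?_
          rw [smul_mul_assoc, map_smul, map_smul, smul_eq_mul, smul_eq_mul, mul_comm]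
        rw [h5, h4, Rat.cast_zero]
      | zero => rw [mul_zero, map_zero]
      | add x y _ _ hx hy => rw [mul_add, map_add, hx, hy, add_zero]
      | smul a x _ hx => rw [mul_smul_comm, map_smul, hx, smul_zero]
    have h2 := Fintype.linearIndependent_iff.1 hli (fun t => ((φ (Pi.single t 1) : ℚ) : K))
      (by rw [← hc, hc0])
    ext t
    have h3 := h2 t
    have h4 : φ (Pi.single t 1) = 0 := by exact_mod_cast h3
    simpa using h4
  have hE : ∀ u, ∃ E : 𝒮, ψ E = Pi.single u 1 := by
    intro u
    have h2 : (Pi.single u 1 : Fin (Fintype.card S) → ℚ) ∈ LinearMap.range ψ := by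
      rw [hsurj]
      exact Submodule.mem_top
    exact h2
  choose E hE using hE
  refine ⟨Fintype.card S, D, fun u => E u, hDm, fun u => (E u).2, fun t u => ?_, hspan⟩
  rw [← hψ, hE, Pi.single_apply]

end basis

theorem AK_top {n : ℕ} (h2 : A.dim < n) : AK A n ≤ ⊥ := by
  refine Submodule.span_le.2 ?_
  rintro _ ⟨D', hD', rfl⟩
  rw [hA.top h2 hD', map_zero]
  exact Submodule.zero_mem _

section basis

variable (hQ : 1 < q) {r : ℕ} (b : Basis (Fin r) K A.H) (α : Fin r → K)
  (hb : ∀ t, A.frobH (b t) = α t • b t)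
  (h1 : ∀ t (c : ℤ), α t = (q : K) ^ c →
    ∃ k : ℕ, α t = (q : K) ^ k ∧ b t ∈ AK A k)

include hQ hb h1

/-- **The dual system.** -/
theorem exists_dual : ∃ (J : Type) (_ : Fintype J) (c : J → ℕ) (D E : J → A.CH),
    IsDual A c D E ∧
    ∀ n, AK A n ≤ Submodule.span K {a | ∃ j, c j = n ∧ a = A.cl (D j)} := by
  classical
  choose m D E hD hE hDE hspan using fun n : Fin (A.dim + 1) =>
    exists_dual_one hA hQ b α hb h1 (n := n) (by omega)
  refine ⟨Σ n : Fin (A.dim + 1), Fin (m n), inferInstance, fun j => j.1, fun j => D j.1 j.2,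
    fun j => E j.1 j.2, ⟨fun j => by omega, fun j => hD j.1 j.2,
    fun j => hE _ _, fun j => by rw [hDE, if_pos rfl], fun i j hij => ?_⟩, fun n => ?_⟩
  · have hDi := hD i.1 i.2
    by_cases h2 : i.1 = j.1
    · obtain ⟨n, t⟩ := i
      obtain ⟨n', u⟩ := j
      dsimp only at h2
      subst h2
      rw [hDE, if_neg]
      intro h3
      dsimp only at h3
      subst h3
      exact hij rfl
    · refine hA.deg_eq_zero ?_ (hA.mul_mem hDi (hE j.1 j.2))
      intro h3
      apply h2
      apply Fin.ext
      omega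
  · rcases Nat.lt_or_ge A.dim n with h2 | h2
    · exact (AK_top hA h2).trans bot_le
    · refine (hspan ⟨n, by omega⟩).trans (Submodule.span_mono ?_)
      rintro _ ⟨t, rfl⟩
      exact ⟨⟨⟨n, by omega⟩, t⟩, rfl, rfl⟩

/-- The classes of the dual system span. -/
theorem span_dual {J : Type} [Fintype J] {c : J → ℕ} {D E : J → A.CH} (h : IsDual A c D E)
    (hN : ∀ n, AK A n ≤ Submodule.span K {a | ∃ j, c j = n ∧ a = A.cl (D j)}) (n : ℕ) :
    AK A n ≤ Submodule.span K {a | ∃ j, A.dim - c j = n ∧ a = A.cl (E j)} := by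
  classical
  rcases Nat.lt_or_ge A.dim n with h2 | hn
  · exact (AK_top hA h2).trans bot_le
  have hEN : ∀ j, A.cl (E j) ∈ AK A (A.dim - c j) := fun j => cl_mem_AK (h.right j)
  refine Submodule.span_le.2 ?_
  rintro _ ⟨G, hG, rfl⟩
  set S : Finset J := Finset.univ.filter fun j => A.dim - c j = n with hSdef
  set w : A.CH := ∑ j ∈ S, A.deg (D j * G) • E j with hw
  have hwN : A.cl w ∈ AK A n := by
    rw [hw, map_sum]
    refine Submodule.sum_mem _ fun j hj => ?_
    rw [cl_smul]
    have h2 : A.dim - c j = n := (Finset.mem_filter.1 hj).2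
    have h3 := hEN j
    rw [h2] at h3
    exact Submodule.smul_mem _ _ h3
  have hz : A.cl (G - w) = 0 := by
    refine AK_nondeg hA hQ b α hb h1 hn ?_ ?_
    · rw [map_sub]
      exact Submodule.sub_mem _ (cl_mem_AK hG) hwN
    · intro c' hc'
      have hc2 := hN _ hc'
      clear hc'
      induction hc2 using Submodule.span_induction with
      | mem c' hc' =>
        obtain ⟨l, hl, rfl⟩ := hc'
        rw [← map_mul, hA.tr_cl]
        have hlS : l ∈ S := by
          rw [hSdef, Finset.mem_filter]
          have := h.le l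
          exact ⟨Finset.mem_univ _, by omega⟩
        have h3 : A.deg ((G - w) * D l) = 0 := by
          have hdE : ∀ j, A.deg (E j * D l) = if j = l then 1 else 0 := by
            intro j
            rw [mul_comm]
            by_cases hjl : j = l
            · subst hjl
              rw [h.eq, if_pos rfl]
            · rw [h.ne l j (Ne.symm hjl), if_neg hjl]
          rw [sub_mul, map_sub, hw, Finset.sum_mul, map_sum,
            Finset.sum_congr rfl fun j _ => by
              rw [smul_mul_assoc, map_smul, hdE j, smul_eq_mul, mul_ite, mul_one, mul_zero],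
            Finset.sum_ite_eq' S l, if_pos hlS, mul_comm G (D l), sub_self]
        rw [h3, Rat.cast_zero]
      | zero => rw [mul_zero, map_zero]
      | add x y _ _ hx hy => rw [mul_add, map_add, hx, hy, add_zero]
      | smul a x _ hx => rw [mul_smul_comm, map_smul, hx, smul_zero]
  have hfinal : A.cl G = A.cl w := by
    rw [map_sub, sub_eq_zero] at hz
    exact hz
  change A.cl G ∈ _
  rw [hfinal, hw, map_sum]
  refine Submodule.sum_mem _ fun j hj => ?_
  rw [cl_smul]
  exact Submodule.smul_mem _ _ (Submodule.subset_span ⟨j, (Finset.mem_filter.1 hj).2, rfl⟩)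

end basis

/-- There are nonzero classes in all codimensions. -/
theorem exists_codim {J : Type} {c : J → ℕ}
    {D : J → A.CH} (hN : ∀ n, AK A n ≤ Submodule.span K {a | ∃ j, c j = n ∧ a = A.cl (D j)})
    {k : ℕ} (hk : k ≤ A.dim) : ∃ t, c t = k := by
  obtain ⟨h, hh, hne⟩ := hA.ample
  have h7 : A.cl (h ^ k) ≠ 0 := by
    intro h8
    apply hne
    rw [← Nat.add_sub_cancel' hk, pow_add, map_mul, h8, zero_mul]
  have h8 : A.cl (h ^ k) ∈ AK A k := by
    have h9 : ∀ l : ℕ, h ^ l ∈ A.codim l := by
      intro l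
      induction l with
      | zero => rw [pow_zero]; exact hA.one_mem
      | succ l ih => rw [pow_succ]; exact hA.mul_mem ih hh
    exact cl_mem_AK (h9 k)
  by_contra h9
  push Not at h9
  have h10 := hN k h8
  have h11 : {a : A.H | ∃ j, c j = k ∧ a = A.cl (D j)} = ∅ := by
    ext a
    constructor
    · rintro ⟨j, hj, -⟩
      exact h9 j hj
    · intro h
      exact h.elim
  rw [h11, Submodule.span_empty, Submodule.mem_bot] at h10
  exact h7 h10

end Pool.Agent.P8H27.UT
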