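import Mathlib
import Pool.Agent.P8H27.UT.Alg
import Pool.Agent.P8H27.UC.Rel

/-!
# The Kunneth formula for uncorrelated varieties
-/

set_option autoImplicit false
set_option linter.unusedSectionVars false

namespace Pool.Agent.P8H27.UT

open Polynomial Module Pool.Agent.Y156.L

variable {K : Type} [Field K] [CharZero K] {A : AbelianData K} {q : ℕ}

section proj

variable {J : Type} [Fintype J] {c : J → ℕ} {D E : J → A.CH}

theorem proj_mix (hA : IsVariety A q) (h : IsDual A c D E)
    (hN : ∀ n, AK A n ≤ Submodule.span K {a | ∃ j, c j = n ∧ a = A.cl (D j)}) {w : A.H}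
    (hw : w ∈ ⨆ n, AK A n) : A.act (proj D E) w = w := by
  classical
  have h1 : ∀ l, A.act (proj D E) (A.cl (D l)) = A.cl (D l) := by
    intro l
    rw [proj, map_sum, LinearMap.sum_apply, Finset.sum_eq_single l]
    · rw [hA.act_corr (Nat.sub_add_cancel (h.le l)) (h.right l) (h.left l), ← map_mul, hA.tr_cl,
        mul_comm, h.eq, Rat.cast_one, one_smul]
    · intro j _ hj
      rw [hA.act_corr (Nat.sub_add_cancel (h.le j)) (h.right j) (h.left j), ← map_mul, hA.tr_cl,
        mul_comm, h.ne l j (Ne.symm hj), Rat.cast_zero, zero_smul]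
    · intro h2
      exact absurd (Finset.mem_univ _) h2
  have h2 : (⨆ n, AK A n) ≤ LinearMap.ker (A.act (proj D E) - 1) := by
    refine iSup_le fun n => (hN n).trans (Submodule.span_le.2 ?_)
    rintro _ ⟨j, -, rfl⟩
    change A.cl (D j) ∈ LinearMap.ker (A.act (proj D E) - 1)
    rw [LinearMap.mem_ker, LinearMap.sub_apply, h1, Module.End.one_apply, sub_self]
  have h3 := h2 hw
  rw [LinearMap.mem_ker, LinearMap.sub_apply, Module.End.one_apply, sub_eq_zero] at h3
  exact h3

theorem act_poly (hA : IsVariety A q) (P : ℚ[X]) :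
    A.act (aeval A.frob P) =
      aeval (A.frobH.toLinearMap : Module.End K A.H) (P.map (algebraMap ℚ K)) := by
  have h1 : A.act A.frob = (A.frobH.toLinearMap : Module.End K A.H) := by
    ext a
    exact hA.act_frob a
  have h2 : (A.act).comp (algebraMap ℚ A.Corr) =
      (algebraMap K (Module.End K A.H)).comp (algebraMap ℚ K) := Subsingleton.elim _ _
  rw [aeval_def, hom_eval₂, h1, h2, aeval_def, eval₂_map]

/-- **The core.** -/
theorem core (hA : IsVariety A q) {Q : ℕ} {T : RelData A} (hT : IsRel Q T)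
    (h : IsDual A c D E) (P R : ℚ[X]) (hPR : IsCoprime P R)
    (hkill : ∀ w : A.H, A.act (proj D E) (aeval (A.frobH.toLinearMap : Module.End K A.H)
      (P.map (algebraMap ℚ K)) w) = aeval (A.frobH.toLinearMap : Module.End K A.H)
        (P.map (algebraMap ℚ K)) w)
    (V : Submodule ℚ T.M) (hV : ∀ m ∈ V, T.act A.frob m ∈ V)
    (hR : ∀ m ∈ V, aeval (T.act A.frob) R m = 0) {m : T.M} (hm : m ∈ V) :
    m = ∑ j, T.times (D j) (T.pair (E j) m) := by
  set F := T.act A.frob with hF
  set Θ : A.Corr := (1 - proj D E) * aeval A.frob P with hΘ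
  have hΘ0 : A.act Θ = 0 := by
    ext w
    rw [hΘ, map_mul, map_sub, map_one, Module.End.mul_apply, act_poly hA, LinearMap.sub_apply,
      Module.End.one_apply, hkill, sub_self, LinearMap.zero_apply]
  obtain ⟨n, hn⟩ := hA.nilpotent Θ hΘ0
  -- the operator `Θ`
  have hΘm : ∀ y : T.M, T.act Θ y = aeval F P y - T.act (proj D E) (aeval F P y) := by
    intro y
    rw [hΘ, map_mul, map_sub, map_one, Module.End.mul_apply, LinearMap.sub_apply,
      Module.End.one_apply, aeval_algHom_apply]
  -- `Θ` kills the image of the projector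
  have hΘp : ∀ y : T.M, T.act Θ (T.act (proj D E) y) = 0 := by
    intro y
    have h4 : aeval F P (T.act (proj D E) y) = ∑ j, T.times (D j)
        (P.eval ((Q : ℚ) ^ c j) • T.pair (E j) y) := by
      rw [act_proj hT h, map_sum]
      refine Finset.sum_congr rfl fun j _ => ?_
      rw [map_smul]
      exact aeval_frob_times hT (h.left j) _ P
    rw [hΘm, h4, sub_eq_zero, act_proj hT h]
    refine Finset.sum_congr rfl fun j _ => ?_
    rw [pair_sum hT h]
  obtain ⟨a, b, hab⟩ := hPR
  have haV : ∀ (S : ℚ[X]) (y : T.M), y ∈ V → aeval F S y ∈ V := by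
    intro S y hy
    have hpow : ∀ l : ℕ, (F ^ l) y ∈ V := by
      intro l
      induction l with
      | zero => simpa using hy
      | succ l ih =>
        rw [pow_succ', Module.End.mul_apply]
        exact hV _ ih
    rw [aeval_eq_sum_range, LinearMap.sum_apply]
    exact Submodule.sum_mem _ fun l _ => Submodule.smul_mem _ _ (hpow l)
  have hdiv : ∀ y ∈ V, aeval F P (aeval F a y) = y := by
    intro y hy
    have h5 := congrArg (fun S => aeval F S y) hab
    simp only [map_add, map_mul, map_one, LinearMap.add_apply, Module.End.mul_apply,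
      Module.End.one_apply] at h5
    rw [hR y hy, map_zero, add_zero] at h5
    rw [← Module.End.mul_apply, ← map_mul, mul_comm, map_mul, Module.End.mul_apply]
    exact h5
  have hpow : ∀ (l : ℕ) (y : T.M), y ∈ V → ∃ y', y - T.act (proj D E) y =
      ((T.act Θ) ^ l) y' := by
    intro l
    induction l with
    | zero =>
      intro y _
      exact ⟨_, by rw [pow_zero, Module.End.one_apply]⟩
    | succ l ih =>
      intro y hy
      obtain ⟨y', hy'⟩ := ih (aeval F a y) (haV a y hy)
      refine ⟨y', ?_⟩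
      rw [pow_succ', Module.End.mul_apply, ← hy', map_sub, hΘp, sub_zero, hΘm, hdiv y hy]
  obtain ⟨y', hy'⟩ := hpow n m hm
  rw [← map_pow, hn, map_zero, LinearMap.zero_apply, sub_eq_zero, act_proj hT h] at hy'
  exact hy'

end proj

/-- The polynomial which maps the cohomology to the algebraic classes. -/
theorem exists_kill {r : ℕ} (b : Basis (Fin r) K A.H) (α : Fin r → K)
    (hb : ∀ t, A.frobH (b t) = α t • b t) (hα : ∀ t, IsIntegral ℚ (α t))
    (hα0 : ∀ t, α t ≠ 0) (χ : ℚ[X]) (μ : ℚ)
    (hgood : ∀ ρ : K, aeval ρ χ = 0 → ∀ t, α t * ρ = (μ : K) → ∃ l : ℕ, b t ∈ AK A l) :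
    ∃ P : ℚ[X], IsCoprime P (rev χ μ) ∧
      ∀ w : A.H, aeval (A.frobH.toLinearMap : Module.End K A.H) (P.map (algebraMap ℚ K)) w ∈
        ⨆ n, AK A n := by
  classical
  set S : Finset (Fin r) := Finset.univ.filter fun t => ¬ ∃ l : ℕ, b t ∈ AK A l with hS
  refine ⟨∏ t ∈ S, minpoly ℚ (α t), ?_, fun w => ?_⟩
  · refine IsCoprime.prod_left fun t ht => ?_
    rw [hS, Finset.mem_filter] at ht
    rw [(minpoly.irreducible (hα t)).coprime_iff_not_dvd]
    intro hdvd
    have h1 := aeval_eq_zero_of_dvd_aeval_eq_zero hdvd (minpoly.aeval ℚ (α t))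
    rw [aeval_rev χ μ (hα0 t)] at h1
    have h2 := (mul_eq_zero.1 h1).resolve_left (pow_ne_zero _ (hα0 t))
    exact ht.2 (hgood _ h2 t (mul_div_cancel₀ _ (hα0 t)))
  · rw [← b.sum_repr w, map_sum]
    refine Submodule.sum_mem _ fun t _ => ?_
    rw [map_smul]
    refine Submodule.smul_mem _ _ ?_
    have h1 : (A.frobH.toLinearMap : Module.End K A.H) (b t) = α t • b t := hb t
    have h2 : ∀ P : ℚ[X], aeval (A.frobH.toLinearMap : Module.End K A.H)
        (P.map (algebraMap ℚ K)) (b t) = (aeval (α t) P) • b t := by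
      intro P
      have h3 : ∀ l : ℕ, ((A.frobH.toLinearMap : Module.End K A.H) ^ l) (b t) =
          (α t) ^ l • b t := by
        intro l
        induction l with
        | zero => simp
        | succ l ih => rw [pow_succ', Module.End.mul_apply, ih, map_smul, h1, smul_smul, pow_succ]
      rw [aeval_def, eval₂_map, aeval_def, eval₂_eq_sum_range, eval₂_eq_sum_range,
        LinearMap.sum_apply, Finset.sum_smul]
      refine Finset.sum_congr rfl fun l _ => ?_
      rw [Module.End.mul_apply, h3, map_smul, RingHom.comp_apply, Module.algebraMap_end_apply,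
        smul_smul, mul_comm]
    rw [h2]
    by_cases ht : ∃ l : ℕ, b t ∈ AK A l
    · obtain ⟨l, hl⟩ := ht
      exact Submodule.smul_mem _ _ (Submodule.mem_iSup_of_mem l hl)
    · have h3 : aeval (α t) (∏ t ∈ S, minpoly ℚ (α t)) = 0 := by
        rw [map_prod]
        exact Finset.prod_eq_zero (Finset.mem_filter.2 ⟨Finset.mem_univ t, ht⟩) (minpoly.aeval _ _)
      rw [h3, zero_smul]
      exact Submodule.zero_mem _

/-- **Existence of an eigenbasis.** -/
theorem exists_eigenbasis (hA : IsVariety A q) (hT : HasTate A q) :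
    ∃ (n : ℕ) (b : Basis (Fin n) K A.H) (α : Fin n → K), ∀ t, A.frobH (b t) = α t • b t := by
  have := hA.finite
  obtain ⟨S, hS1, hS2, hS3⟩ := exists_linearIndependent K {v : A.H | ∃ μ : K, A.frobH v = μ • v}
  have hfin : S.Finite := hS3.setFinite
  have hft := hfin.fintype
  let e := Fintype.equivFin S
  let b0 : Basis S K A.H := Basis.mk hS3 (by rw [Subtype.range_coe, hS2, hT.semisimple])
  have h1 : ∀ t : Fin (Fintype.card S), ∃ μ : K, A.frobH (b0.reindex e t) = μ • b0.reindex e t := by
    intro t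
    have h2 : b0.reindex e t = ((e.symm t : S) : A.H) := by
      rw [Basis.reindex_apply, Basis.mk_apply]
    rw [h2]
    exact hS1 (e.symm t).2
  choose α hα using h1
  exact ⟨Fintype.card S, b0.reindex e, α, hα⟩

end Pool.Agent.P8H27.UT
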