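import Mathlib
import Pool.Agent.P8H27.UT.Core
import Pool.Agent.P8H27.MC.Num

/-!
# The conjectures for products of uncorrelated varieties
-/

set_option autoImplicit false
set_option linter.unusedSectionVars false

namespace Pool.Agent.P8H27.UT

open Polynomial Module Pool.Agent.Y156.L Pool.Agent.P8H27.UC Pool.Agent.P8H27.RF

variable {p m : ℕ} [hp : Fact p.Prime] {K : Type} [Field K] [CharZero K] [IsAlgClosed K]
  {A : AbelianData K} {R : Set (K × ℤ)}

/-- The weight is determined by the relation. -/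
theorem weight_sum (hm : 0 < m) {n n' : ℕ} {c : Fin n → K} {d : Fin n' → K} {u : Fin n → ℤ}
    {w : Fin n' → ℤ} (hc : ∀ k, IsWeilNumber p m (u k) (c k))
    (hd : ∀ k, IsWeilNumber p m (w k) (d k)) {e : ℤ}
    (h : (∏ k, c k) * ∏ k, d k = ((p ^ m : ℕ) : K) ^ e) :
    ∑ k, u k + ∑ k, w k = 2 * e := by
  classical
  have hq1 : (1 : ℝ) < ((p : ℝ) ^ m) := by
    exact_mod_cast Nat.one_lt_pow hm.ne' hp.out.one_lt
  have hq00 : (0 : ℝ) < ((p : ℝ) ^ m) := one_pos.trans hq1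
  obtain ⟨E, _, _, _, j, x, hx⟩ := exists_field' (K := Fin n ⊕ Fin n') (Sum.elim c d) (by
      rintro (k | k)
      · exact (hc k).isIntegral
      · exact (hd k).isIntegral)
  let a : Fin n → E := fun k => x (Sum.inl k)
  let b : Fin n' → E := fun k => x (Sum.inr k)
  have ha : ∀ k, j (a k) = c k := fun k => hx (Sum.inl k)
  have hb : ∀ k, j (b k) = d k := fun k => hx (Sum.inr k)
  have haw : ∀ k, IsWeilIn p m (u k) (a k) := fun k =>
    IsWeilNumber.weilIn (Ω := K) (j := j) (by rw [ha]; exact hc k)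
  have hbw : ∀ k, IsWeilIn p m (w k) (b k) := fun k =>
    IsWeilNumber.weilIn (Ω := K) (j := j) (by rw [hb]; exact hd k)
  have hE : (∏ k, a k) * ∏ k, b k = ((p ^ m : ℕ) : E) ^ e := by
    apply j.injective
    rw [map_mul, map_prod, map_prod, map_zpow₀, map_natCast, ← h]
    congr 1
    · exact Finset.prod_congr rfl fun k _ => ha k
    · exact Finset.prod_congr rfl fun k _ => hb k
  let jC : E →+* ℂ := ((IsAlgClosed.lift : E →ₐ[ℚ] ℂ) : E →+* ℂ)
  have h1 := congrArg (fun x => ‖jC x‖ ^ 2) hE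
  simp only [map_mul, map_prod, map_zpow₀, map_natCast, norm_mul, norm_prod, norm_zpow,
    Complex.norm_natCast, mul_pow, ← Finset.prod_pow] at h1
  rw [Finset.prod_congr rfl fun k _ => (haw k).abs jC,
    Finset.prod_congr rfl fun k _ => (hbw k).abs jC] at h1
  have h2 : ∀ (n : ℕ) (u : Fin n → ℤ), ∏ k, ((p : ℝ) ^ m) ^ u k = ((p : ℝ) ^ m) ^ (∑ k, u k) := by
    intro n u
    induction n with
    | zero => simp
    | succ n ih => rw [Fin.prod_univ_succ, Fin.sum_univ_succ, ih, zpow_add₀ hq00.ne']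
  rw [h2, h2, ← zpow_add₀ hq00.ne'] at h1
  have h3 : (((p ^ m : ℕ) : ℝ) ^ e) ^ 2 = ((p : ℝ) ^ m) ^ (2 * e) := by
    push_cast
    rw [← zpow_natCast, ← zpow_mul]
    congr 1
    push_cast
    ring
  rw [h3] at h1
  exact (zpow_right_injective₀ hq00 hq1.ne') h1

section good

variable (hm : 0 < m) (hA : IsVariety A (p ^ m)) (hT : HasTate A (p ^ m))
  (hR : HasEigenvaluesIn A p m R)

include hm hR hT in
/-- Uncorrelated eigenvalues occur in relations with powers of `q` only. -/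
theorem good {ρ : K} (hρ : IsUncorrelated A p m R ρ) {v : A.H} (hv : v ≠ 0) {α : K}
    (hα : A.frobH v = α • v) {c : ℤ} (hc : α * ρ = ((p ^ m : ℕ) : K) ^ c) :
    ∃ l : ℕ, α = ((p ^ m : ℕ) : K) ^ l ∧ v ∈ AK A l := by
  obtain ⟨⟨w, n', b, hb, hρb, hw⟩, hodd⟩ := hρ
  obtain ⟨u, n, a, ha, hαa, hu⟩ := hR.product α ⟨v, hv, hα⟩
  have hsum := weight_sum hm (fun k => hR.weil _ (ha k)) (fun k => (hb k).1) (e := c)
    (by rw [← hαa, ← hρb, hc])
  rw [← hu, ← hw] at hsum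
  obtain ⟨⟨t, ht, e1⟩, ⟨t', ht', e2⟩⟩ := rel_of_uncorrelated hm (K := Fin n) (K' := Fin n')
    (c := fun k => (a k).1) (d := fun k => (b k).1) (u := fun k => (a k).2)
    (w := fun k => (b k).2) (fun k => hR.weil _ (ha k)) (fun k => (hb k).1)
    (fun k l => (hb l).2 _ (ha k)) one_pos (by
      rw [← hαa, ← hρb, ← hu, ← hw, hc, hsum, ← zpow_natCast, ← zpow_mul]
      congr 1
      push_cast
      ring)
  rw [← hαa, ← hu] at e1
  rw [← hρb, ← hw] at e2
  rcases Int.even_or_odd' u with ⟨k, hk | hk⟩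
  · obtain ⟨l, hl⟩ := hR.neat α ⟨v, hv, hα⟩ (2 * t) k (by omega) (by
      rw [e1, hk]
      congr 1
      push_cast
      ring)
    refine ⟨l, hl, hT.tate l v ?_⟩
    rw [hα, hl]
  · exfalso
    have hu' : IsOddSS (p ^ m) α := ⟨t, u, ht, ⟨k, hk⟩, e1⟩
    have hw' : IsOddSS (p ^ m) ρ := ⟨t', w, ht', ⟨c - k - 1, by linarith⟩, e2⟩
    rcases hodd with h | h
    · exact h α ⟨v, hv, hα⟩ hu'
    · exact h hw'

omit [IsAlgClosed K] in
theorem isUncorrelated_one (hm : 0 < m) : IsUncorrelated A p m R (1 : K) := by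
  refine ⟨⟨0, 0, Fin.elim0, fun k => k.elim0, by simp, by simp⟩, Or.inr ?_⟩
  rintro ⟨n, k, hn, hk, h⟩
  have hq1 : 1 < p ^ m := Nat.one_lt_pow hm.ne' hp.out.one_lt
  rw [one_pow] at h
  have h4 : ((p ^ m : ℕ) : ℚ) ^ (k * n) = 1 := by
    have h5 : ((((p ^ m : ℕ) : ℚ) ^ (k * n) : ℚ) : K) = ((1 : ℚ) : K) := by
      push_cast
      push_cast at h
      exact h.symm
    exact Rat.cast_injective h5
  have h5 : ((p ^ m : ℕ) : ℚ) ^ (k * n) = ((p ^ m : ℕ) : ℚ) ^ (0 : ℤ) := by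
    rw [h4, zpow_zero]
  have h6 := zpow_right_injective₀ (a := ((p ^ m : ℕ) : ℚ)) (by exact_mod_cast (by omega))
    (by exact_mod_cast hq1.ne') h5
  have h7 : k = 0 := (mul_eq_zero.1 h6).resolve_right (by exact_mod_cast hn.ne')
  rw [h7] at hk
  exact absurd hk (by decide)

theorem not_isUncorrelated_zero : ¬ IsUncorrelated A p m R (0 : K) := by
  rintro ⟨⟨w, n, b, hb, h, -⟩, -⟩
  obtain ⟨k, -, hk⟩ := Finset.prod_eq_zero_iff.1 h.symm
  have h1 := (hb k).1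
  rw [hk] at h1
  have h2 := h1.abs 0 (by rw [minpoly.zero, aeval_X])
  rw [norm_zero, zero_pow two_ne_zero] at h2
  have h3 : (0 : ℝ) < (p : ℝ) ^ m := by
    exact_mod_cast pow_pos hp.out.pos m
  exact absurd h2 (zpow_pos h3 _).ne

include hm hA hT hR in
/-- **The Kunneth formula.** -/
theorem exists_classes :
    ∃ (J : Type) (_ : Fintype J) (c : J → ℕ) (D E' : J → A.CH), IsSystem A c D ∧
      IsDual A c D E' ∧
      ∀ T : RelData A, IsRel (p ^ m) T → HasUncorrelatedRoots p m R T →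
        ∀ (i j : ℤ) (m' : T.M), T.InvM (p ^ m) i j m' →
          m' = ∑ t, T.times (D t) (T.pair (E' t) m') ∧
          m' = ∑ t, T.times (E' t) (T.pair (D t) m') := by
  obtain ⟨n, b, α, hb⟩ := exists_eigenbasis hA hT
  have hQ1 : 1 < p ^ m := Nat.one_lt_pow hm.ne' hp.out.one_lt
  have hQ0 : ((p ^ m : ℕ) : K) ≠ 0 := by exact_mod_cast (by omega : p ^ m ≠ 0)
  have hgood : ∀ ρ : K, IsUncorrelated A p m R ρ → ∀ t (c : ℤ),
      α t * ρ = ((p ^ m : ℕ) : K) ^ c → ∃ l : ℕ, α t = ((p ^ m : ℕ) : K) ^ l ∧ b t ∈ AK A l :=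
    fun ρ hρ t c hc => good hm hT hR hρ (b.ne_zero t) (hb t) hc
  have hα : ∀ t, IsIntegral ℚ (α t) := by
    intro t
    obtain ⟨u, n, a, ha, hαa, -⟩ := hR.product (α t) ⟨b t, b.ne_zero t, hb t⟩
    rw [hαa]
    exact IsIntegral.prod _ fun k _ => (hR.weil _ (ha k)).isIntegral
  have hα0 : ∀ t, α t ≠ 0 := by
    intro t h0
    refine b.ne_zero t (hA.nondeg _ fun a => ?_)
    have h1 := hA.tr_frob (b t * a)
    rw [map_mul, hb t, h0, zero_smul, zero_mul, map_zero] at h1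
    exact (mul_eq_zero.1 h1.symm).resolve_left (pow_ne_zero _ hQ0)
  have h1 : ∀ t (c : ℤ), α t = ((p ^ m : ℕ) : K) ^ c →
      ∃ l : ℕ, α t = ((p ^ m : ℕ) : K) ^ l ∧ b t ∈ AK A l := by
    intro t c hc
    exact hgood 1 (isUncorrelated_one hm) t c (by rw [mul_one]; exact hc)
  obtain ⟨J, hJ, c, D, E', hdual, hN⟩ := exists_dual hA hQ1 b α hb h1
  have hN' := span_dual hA hQ1 b α hb h1 hdual hN
  have hfam : IsSystem A c D := ⟨hdual.left, hdual.le, fun k hk => exists_codim hA hN hk⟩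
  refine ⟨J, hJ, c, D, E', hfam, hdual, fun T hT hrk i j m' hm' => ?_⟩
  obtain ⟨χ, hχ, hrank, hkillψ⟩ := hrk i j
  have hχ0 : χ.coeff 0 ≠ 0 := by
    intro h0
    apply not_isUncorrelated_zero (A := A) (p := p) (m := m) (R := R)
    apply hrank
    rw [aeval_def, eval₂_at_zero, h0, map_zero]
  obtain ⟨P', hP', hmix⟩ := exists_kill b α hb hα hα0 χ ((((p ^ m : ℕ) : ℚ)) ^ j) (by
    intro ρ hρ t ht
    obtain ⟨l, -, hl⟩ := hgood ρ (hrank ρ hρ) t j (by rw [ht]; push_cast; rfl)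
    exact ⟨l, hl⟩)
  have hV1 : ∀ m' ∈ invSub T (p ^ m) i j, T.frobM m' ∈ invSub T (p ^ m) i j :=
    fun m' hm' => inv_frob hT hm'
  have hV2 : ∀ m' ∈ invSub T (p ^ m) i j, T.act A.frob (T.frobM m') =
      ((p ^ m : ℕ) : ℚ) ^ j • m' := fun m' hm' => hm'.2
  have hV : ∀ m' ∈ invSub T (p ^ m) i j, T.act A.frob m' ∈ invSub T (p ^ m) i j := fun m' hm' =>
    stable_of _ T.frobM _ _ hV1 hV2 χ hχ0 hkillψ hm'
  have hR : ∀ m' ∈ invSub T (p ^ m) i j,
      aeval (T.act A.frob) (rev χ (((p ^ m : ℕ) : ℚ) ^ j)) m' = 0 :=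
    fun m' hm' => aeval_rev_op _ T.frobM _ _ hV1 hV2 χ hkillψ hm'
  exact ⟨core hA hT hdual P' _ hP'
      (fun w => proj_mix hA hdual hN (hmix w)) _ hV hR hm',
    core hA hT hdual.symm P' _ hP'
      (fun w => proj_mix hA hdual.symm hN' (hmix w)) _ hV hR hm'⟩

end good

end Pool.Agent.P8H27.UT
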