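import Pool.Agent.P8H27.UT.Defs

/-!
# The conjectures for products of uncorrelated varieties: statements

In the following definitions `X` is a smooth projective variety over the field with `q = p ^ m`
elements whose motive is finite-dimensional (`IsVariety`) and which satisfies the Tate conjecture
(`HasTate`), the eigenvalues of Frobenius on its cohomology are products of Weil numbers in the set
`R` (`HasEigenvaluesIn`), and `Z` is arbitrary, but the eigenvalues of Frobenius on the theory for `Z`
are uncorrelated with `R` (`HasUncorrelatedRoots`).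
-/

set_option autoImplicit false

namespace Pool.Agent.P8H27.UT

open Polynomial Module Pool.Agent.Y156.L Pool.Agent.P8H27.UC

section defs

variable {K : Type} [Field K] {A : AbelianData K}

/-- No nonzero element of `H^i(Z, j)` is orthogonal to `H^(2 d - i)(Z, d - j)`. If the theory
consists of the cycles modulo homological equivalence and `d = dim Z` then this says, for `i = 2 j`, that
the cycles of codimension `j` on `Z` which are numerically equivalent to zero are homologically
equivalent to zero. -/
def NumN {T : RelData A} (B : CupProduct T) (d i j : ℤ) : Prop :=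
  ∀ x : T.N, T.DegN i j x → (∀ y, T.DegN (2 * d - i) (d - j) y → B.cupN x y = 0) → x = 0

/-- No nonzero element of `H^i(X × Z, j)` is orthogonal to `H^(2 d - i)(X × Z, d - j)`. If the theory
consists of the cycles modulo homological equivalence and `d = dim (X × Z)` then this says, for `i = 2 j`,
that the cycles of codimension `j` on `X × Z` which are numerically equivalent to zero are
homologically equivalent to zero. -/
def NumM {T : RelData A} (B : CupProduct T) (d i j : ℤ) : Prop :=
  ∀ x : T.M, T.DegM i j x → (∀ y, T.DegM (2 * d - i) (d - j) y → B.cupM x y = 0) → x = 0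

end defs

/-- There are finitely many cycles `D t` on `X`, such that for all `R` (cohomology) relative to any
scheme `Z`, with uncorrelated eigenvalues, the Kunneth formula holds, and for all `T` (motivic
cohomology) relative to `Z` with a regulator to `R`, and all `i`, `j`, the regulator of `X × Z` in
bidegree `(i, j)` is onto the Frobenius invariants if and only if those of `Z` in the bidegrees
`(i - 2 k, j - k)`, `0 ≤ k ≤ dim X`, are. -/
def TateTimes (p m : ℕ) [Fact p.Prime] : Prop :=
  ∀ (K : Type) [Field K] [IsAlgClosed K] [CharZero K] (X : AbelianData K) (S : Set (K × ℤ)),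
    IsVariety X (p ^ m) → HasTate X (p ^ m) → HasEigenvaluesIn X p m S →
    ∃ (J : Type) (_ : Fintype J) (c : J → ℕ) (D : J → X.CH), IsSystem X c D ∧
      ∀ R : RelData X, IsRel (p ^ m) R → HasUncorrelatedRoots p m S R → R.Kunneth (p ^ m) c D ∧
        ∀ (T : RelData X) (ρ : Regulator T R), IsRel (p ^ m) T → IsRegulator ρ →
          ∀ i j : ℤ, OntoM ρ (p ^ m) i j ↔
            ∀ k : ℕ, k ≤ X.dim → OntoN ρ (p ^ m) (i - 2 * k) (j - k)

/-- There are finitely many cycles `D t` on `X`, such that for all `T` (motivic cohomology) relative
to any scheme `Z`, pure and with uncorrelated eigenvalues, the Kunneth formula holds, and for all `R`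
(cohomology) relative to `Z` with a regulator from `T` to `R`, and all `i`, `j`, the regulator of
`X × Z` in bidegree `(i, j)` is injective if and only if those of `Z` in the bidegrees
`(i - 2 k, j - k)`, `0 ≤ k ≤ dim X`, are; and if the eigenvalues of `Z` on `R` are uncorrelated as well
then it is onto the Frobenius invariants if and only if those of `Z` are. -/
def BeilinsonTimes (p m : ℕ) [Fact p.Prime] : Prop :=
  ∀ (K : Type) [Field K] [IsAlgClosed K] [CharZero K] (X : AbelianData K) (S : Set (K × ℤ)),
    IsVariety X (p ^ m) → HasTate X (p ^ m) → HasEigenvaluesIn X p m S →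
    ∃ (J : Type) (_ : Fintype J) (c : J → ℕ) (D : J → X.CH), IsSystem X c D ∧
      ∀ T : RelData X, IsRel (p ^ m) T → T.IsPure (p ^ m) → HasUncorrelatedRoots p m S T →
        T.Kunneth (p ^ m) c D ∧
        ∀ (R : RelData X) (ρ : Regulator T R), IsRel (p ^ m) R → IsRegulator ρ → ∀ i j : ℤ,
          (InjectiveM ρ i j ↔ ∀ k : ℕ, k ≤ X.dim → InjectiveN ρ (i - 2 * k) (j - k)) ∧
          (HasUncorrelatedRoots p m S R →
            (OntoM ρ (p ^ m) i j ↔ ∀ k : ℕ, k ≤ X.dim → OntoN ρ (p ^ m) (i - 2 * k) (j - k)))

/-- There are finitely many cycles `D t` on `X`, such that for all `T` (motivic cohomology) relative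
to any scheme `Z`, pure and with uncorrelated eigenvalues, the Kunneth formula holds, and for all
`i`, `j` the group `H^i(X × Z, j)` is zero if and only if the groups `H^(i - 2 k)(Z, j - k)`,
`0 ≤ k ≤ dim X`, are zero. -/
def ParshinTimes (p m : ℕ) [Fact p.Prime] : Prop :=
  ∀ (K : Type) [Field K] [IsAlgClosed K] [CharZero K] (X : AbelianData K) (S : Set (K × ℤ)),
    IsVariety X (p ^ m) → HasTate X (p ^ m) → HasEigenvaluesIn X p m S →
    ∃ (J : Type) (_ : Fintype J) (c : J → ℕ) (D : J → X.CH), IsSystem X c D ∧
      ∀ T : RelData X, IsRel (p ^ m) T → T.IsPure (p ^ m) → HasUncorrelatedRoots p m S T →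
        T.Kunneth (p ^ m) c D ∧
        ∀ i j : ℤ, T.grM i j = ⊥ ↔ ∀ k : ℕ, k ≤ X.dim → T.grN (i - 2 * k) (j - k) = ⊥

/-- There are finitely many cycles `D t` on `X`, such that for all `T` (the cycles modulo homological
equivalence) relative to any smooth projective scheme `Z` of any dimension `d`, pure and with
uncorrelated eigenvalues: the Kunneth formula holds, and homological and numerical equivalence coincide
in bidegree `(i, j)` on `X × Z` if and only if they do in the bidegrees `(i - 2 k, j - k)`,
`0 ≤ k ≤ dim X`, on `Z`. -/
def NumTimes (p m : ℕ) [Fact p.Prime] : Prop :=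
  ∀ (K : Type) [Field K] [IsAlgClosed K] [CharZero K] (X : AbelianData K) (S : Set (K × ℤ)),
    IsVariety X (p ^ m) → HasTate X (p ^ m) → HasEigenvaluesIn X p m S →
    ∃ (J : Type) (_ : Fintype J) (c : J → ℕ) (D : J → X.CH), IsSystem X c D ∧
      ∀ T : RelData X, IsRel (p ^ m) T → T.IsPure (p ^ m) → HasUncorrelatedRoots p m S T →
        T.Kunneth (p ^ m) c D ∧ ∀ B : CupProduct T, IsCupProduct B →
          ∀ d i j : ℤ, NumM B (X.dim + d) i j ↔
            ∀ k : ℕ, k ≤ X.dim → NumN B d (i - 2 * k) (j - k)

end Pool.Agent.P8H27.UT
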