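import Mathlib
import Pool.Agent.P8H27.UT.Main
import Pool.Agent.P8H27.UT.Stmt

/-!
# The conjectures for products of uncorrelated varieties: conclusion
-/

set_option autoImplicit false
set_option linter.unusedSectionVars false

namespace Pool.Agent.P8H27.UT

open Polynomial Module Pool.Agent.Y156.L Pool.Agent.P8H27.UC Pool.Agent.P8H27.RF

section

variable {K : Type} [Field K] [CharZero K] {A : AbelianData K} {J : Type} [Fintype J]
  {c : J → ℕ} {D E : J → A.CH} {Q : ℕ}

theorem onto_iff (hF : IsSystem A c D) (h : IsDual A c D E) (hQ : Q ≠ 0) {T R : RelData A}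
    (hT : IsRel Q T) (hR : IsRel Q R) {ρ : Regulator T R} (hc : IsRegulator ρ)
    (hexp : ∀ (i j : ℤ) (m : R.M), R.InvM Q i j m → m = ∑ t, R.times (D t) (R.pair (E t) m))
    (i j : ℤ) : OntoM ρ Q i j ↔
      ∀ k : ℕ, k ≤ A.dim → OntoN ρ Q (i - 2 * k) (j - k) := by
  constructor
  · intro h0 k hk w hw
    obtain ⟨t, rfl⟩ := hF.exists_eq k hk
    have h1 := inv_times hQ hR (h.left t) hw
    rw [sub_add_cancel, sub_add_cancel] at h1
    obtain ⟨m, hm1, hm2⟩ := h0 _ h1
    change ρ.cM m = _ at hm2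
    refine ⟨T.pair (E t) m, hT.pair_mem (by have := h.le t; omega) (h.right t) hm1, ?_⟩
    change ρ.cN (T.pair (E t) m) = w
    classical
    rw [reg_push hc, hm2, dualpair hR h t t w, if_pos rfl]
  · intro h0 w hw
    have h1 := fun t => inv_pair hQ hR h hw (hexp i j w hw) t
    choose n hn1 hn2 using fun t => h0 (c t) (h.le t) _ (h1 t)
    refine ⟨∑ t, T.times (D t) (n t), ?_, ?_⟩
    · change _ ∈ T.grM i j
      refine Submodule.sum_mem _ fun t _ => ?_
      have h2 := hT.times_mem (h.left t) (hn1 t)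
      rwa [sub_add_cancel, sub_add_cancel] at h2
    · change ρ.cM _ = w
      rw [map_sum]
      conv_rhs => rw [hexp i j w hw]
      refine Finset.sum_congr rfl fun t _ => ?_
      have h3 : ρ.cN (n t) = R.pair (E t) w := hn2 t
      rw [reg_mul hc, h3]

theorem inj_iff (hF : IsSystem A c D) (h : IsDual A c D E) {T R : RelData A}
    (hT : IsRel Q T) {ρ : Regulator T R} (hc : IsRegulator ρ)
    (hexp : ∀ (i j : ℤ), ∀ m ∈ T.grM i j, m = ∑ t, T.times (D t) (T.pair (E t) m))
    (i j : ℤ) : InjectiveM ρ i j ↔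
      ∀ k : ℕ, k ≤ A.dim → InjectiveN ρ (i - 2 * k) (j - k) := by
  constructor
  · intro h0 k hk n hn hcn
    change ρ.cN n = 0 at hcn
    obtain ⟨t, rfl⟩ := hF.exists_eq k hk
    have h1 := hT.times_mem (h.left t) hn
    rw [sub_add_cancel, sub_add_cancel] at h1
    have h2 := h0 _ h1 (by change ρ.cM _ = 0; rw [reg_mul hc, hcn, map_zero])
    classical
    have h3 := dualpair hT h t t n
    rw [h2, map_zero, if_pos rfl] at h3
    exact h3.symm
  · intro h0 m hm hcm
    change ρ.cM m = 0 at hcm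
    rw [hexp i j m hm]
    refine Finset.sum_eq_zero fun t _ => ?_
    have h1 : T.pair (E t) m = 0 := by
      refine h0 (c t) (h.le t) _ (hT.pair_mem (by have := h.le t; omega) (h.right t) hm) ?_
      change ρ.cN _ = 0
      rw [reg_push hc, hcm, map_zero]
    rw [h1, map_zero]

theorem bot_iff (hF : IsSystem A c D) (h : IsDual A c D E) {T : RelData A}
    (hT : IsRel Q T)
    (hexp : ∀ (i j : ℤ), ∀ m ∈ T.grM i j, m = ∑ t, T.times (D t) (T.pair (E t) m))
    (i j : ℤ) : T.grM i j = ⊥ ↔ ∀ k : ℕ, k ≤ A.dim → T.grN (i - 2 * k) (j - k) = ⊥ := by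
  constructor
  · intro h0 k hk
    rw [eq_bot_iff]
    intro n hn
    obtain ⟨t, rfl⟩ := hF.exists_eq k hk
    have h1 := hT.times_mem (h.left t) hn
    rw [sub_add_cancel, sub_add_cancel, h0, Submodule.mem_bot] at h1
    classical
    have h3 := dualpair hT h t t n
    rw [h1, map_zero, if_pos rfl] at h3
    rw [Submodule.mem_bot]
    exact h3.symm
  · intro h0
    rw [eq_bot_iff]
    intro m hm
    rw [Submodule.mem_bot, hexp i j m hm]
    refine Finset.sum_eq_zero fun t _ => ?_
    have h1 := hT.pair_mem (c := c t) (by have := h.le t; omega) (h.right t) hm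
    rw [h0 (c t) (h.le t), Submodule.mem_bot] at h1
    rw [h1, map_zero]

theorem num_iff (hF : IsSystem A c D) (h : IsDual A c D E) {T : RelData A} (hT : IsRel Q T)
    {B : CupProduct T} (hB : IsCupProduct B)
    (hexp : ∀ (i j : ℤ), ∀ m ∈ T.grM i j, m = ∑ t, T.times (D t) (T.pair (E t) m))
    (d i j : ℤ) : NumM B (A.dim + d) i j ↔
      ∀ k : ℕ, k ≤ A.dim → NumN B d (i - 2 * k) (j - k) := by
  classical
  have hc : ∀ t, ((A.dim - c t : ℕ) : ℤ) = A.dim - c t := fun t => Nat.cast_sub (h.le t)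
  constructor
  · intro h0 k hk x hx hx2
    obtain ⟨t, rfl⟩ := hF.exists_eq k hk
    have h1 := hT.times_mem (h.left t) hx
    rw [sub_add_cancel, sub_add_cancel] at h1
    have h2 := h0 _ h1 (fun y hy => by
      have h3 : B.BM (T.times (D t) x) y = B.BN x (T.pair (D t) y) := hB.left (D t) x y
      change B.BM (T.times (D t) x) y = 0
      rw [h3]
      refine hx2 _ ?_
      have h4 := hT.pair_mem (c := A.dim - c t) (by have := h.le t; omega) (h.left t) hy
      rw [hc] at h4
      have e1 : 2 * ((A.dim : ℤ) + d) - i - 2 * (A.dim - c t) = 2 * d - (i - 2 * c t) := by ring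
      have e2 : (A.dim : ℤ) + d - j - (A.dim - c t) = d - (j - c t) := by ring
      rw [e1, e2] at h4
      exact h4)
    have h3 := dualpair hT h t t x
    rw [h2, map_zero, if_pos rfl] at h3
    exact h3.symm
  · intro h0 x hx hx2
    change x ∈ T.grM i j at hx
    rw [hexp i j x hx]
    refine Finset.sum_eq_zero fun t _ => ?_
    have h1 : T.pair (E t) x = 0 := by
      refine h0 (c t) (h.le t) _ (hT.pair_mem (by have := h.le t; omega) (h.right t) hx) ?_
      intro y hy
      have h3 : B.BM x (T.times (E t) y) = B.BN (T.pair (E t) x) y := hB.right (E t) x y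
      change B.BN (T.pair (E t) x) y = 0
      rw [← h3]
      refine hx2 _ ?_
      have h4 := hT.times_mem (h.right t) hy
      rw [hc] at h4
      have e1 : 2 * d - (i - 2 * (c t : ℤ)) + 2 * (A.dim - c t) = 2 * ((A.dim : ℤ) + d) - i := by
        ring
      have e2 : d - (j - (c t : ℤ)) + (A.dim - c t) = (A.dim : ℤ) + d - j := by ring
      rw [e1, e2] at h4
      exact h4
    rw [h1, map_zero]

end

variable {p m : ℕ} [hp : Fact p.Prime] (hm : 0 < m)

include hm

theorem tateTimes : TateTimes p m := by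
  intro K _ _ _ A R hA hT hR
  have hQ : p ^ m ≠ 0 := pow_ne_zero _ hp.out.ne_zero
  obtain ⟨J, hJ, c, D, E', hF, hdual, hmain⟩ := exists_classes hm hA hT hR
  refine ⟨J, hJ, c, D, hF, fun Rt hRt hroots => ?_⟩
  have hexp := fun i j m hm => (hmain Rt hRt hroots i j m hm).1
  exact ⟨kunneth_of hQ hRt hdual hexp, fun T ρ hT hc i j =>
    onto_iff hF hdual hQ hT hRt hc hexp i j⟩

theorem beilinsonTimes : BeilinsonTimes p m := by
  intro K _ _ _ A R hA hT hR
  have hQ : p ^ m ≠ 0 := pow_ne_zero _ hp.out.ne_zero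
  obtain ⟨J, hJ, c, D, E', hF, hdual, hmain⟩ := exists_classes hm hA hT hR
  refine ⟨J, hJ, c, D, hF, fun T hT hpure hroots => ?_⟩
  have hexp := fun i j m hm => (hmain T hT hroots i j m hm).1
  refine ⟨kunneth_of hQ hT hdual hexp, fun Rt ρ hRt hc i j => ⟨?_, fun hroots' => ?_⟩⟩
  · exact inj_iff hF hdual hT hc (fun i j m hm => hexp i j m (hpure i j m hm)) i j
  · exact onto_iff hF hdual hQ hT hRt hc (fun i j m hm => (hmain Rt hRt hroots' i j m hm).1) i j

theorem parshinTimes : ParshinTimes p m := by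
  intro K _ _ _ A R hA hT hR
  have hQ : p ^ m ≠ 0 := pow_ne_zero _ hp.out.ne_zero
  obtain ⟨J, hJ, c, D, E', hF, hdual, hmain⟩ := exists_classes hm hA hT hR
  refine ⟨J, hJ, c, D, hF, fun T hT hpure hroots => ?_⟩
  have hexp := fun i j m hm => (hmain T hT hroots i j m hm).1
  exact ⟨kunneth_of hQ hT hdual hexp, fun i j =>
    bot_iff hF hdual hT (fun i j m hm => hexp i j m (hpure i j m hm)) i j⟩

theorem numTimes : NumTimes p m := by
  intro K _ _ _ A R hA hT hR
  have hQ : p ^ m ≠ 0 := pow_ne_zero _ hp.out.ne_zero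
  obtain ⟨J, hJ, c, D, E', hF, hdual, hmain⟩ := exists_classes hm hA hT hR
  refine ⟨J, hJ, c, D, hF, fun T hT hpure hroots => ?_⟩
  have hexp := fun i j m hm => (hmain T hT hroots i j m hm).1
  exact ⟨kunneth_of hQ hT hdual hexp, fun B hB d i j =>
    num_iff hF hdual hT hB (fun i j m hm => hexp i j m (hpure i j m hm)) d i j⟩

end Pool.Agent.P8H27.UT
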